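import Pool.Agent.Q296.VB.Final

/-!
# MP_588841_co, Q1: all pairs `(v, l)` for which a `VB(v,3,l)` design without repeated blocks exists

Since `[i,i,j]` adds `2` to the concurrence of `i` and `j` only, there is such a design if and only if
there is a set `T` of triples of points such that every pair of points is in `l`, `l - 2` or `l - 4`
triples of `T`. Passing to the complement of `T` exchanges `l` and `v + 2 - l`. For `2 ≤ l ≤ v` with
`l (v - 1)` even the set `T` is found by induction on `v`: the points are those of `X ∪ Y`, where `Y`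
has `n + 1` points (`n` odd) and `|X|` is one of `n - 1`, `n`, `n + 1`, `n + 2`; we take a set of
triples for `X` (induction) and the triples `{x, y, y'}` with `x` in `X`, `y y'` in the one-factor `F_j`
of `Y` and `M x j`, where `M` is a 0/1-matrix with row sums and column sums in `{l, l - 2, l - 4}`.
For `l = 1` these are the Steiner triple systems of Bose and Skolem.
-/

namespace Pool.Agent.Results.MP_588841_co.AllPairs

open Pool.Agent.Q296.VB

/-- A `VB(v,3,l)` design without repeated blocks (`v ≥ 2`, `l ≥ 1`) exists if and only if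
`l = v + 2`, or `2 ≤ l ≤ v` and `l (v - 1)` is even, or `l ∈ {1, v + 1}` and `v` is `1` or `3` modulo
`6`. -/
theorem result : ∀ v l : ℕ, 2 ≤ v → 1 ≤ l →
    ((∃ D : List (Multiset (Fin v)), D.Nodup ∧ IsVB v l D) ↔
      (l = v + 2 ∨ (2 ≤ l ∧ l ≤ v ∧ Even (l * (v - 1))) ∨
        ((l = 1 ∨ l = v + 1) ∧ (v % 6 = 1 ∨ v % 6 = 3)))) :=
  main

end Pool.Agent.Results.MP_588841_co.AllPairs
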